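import Pool.Agent.Lib.MP_a0a493_pr.Thr

open MeasureTheory Filter Topology Pool.Agent.Lib.MP_a0a493_pr

/-- The threshold for an unbounded component is positive in every dimension `d ≥ 3`. -/
theorem Pool.Agent.Results.MP_a0a493_pr.Positive.result (d : ℕ) (hd : 3 ≤ d) :
    ∃ a : ℝ, 0 < a ∧ ∀ (Ω : Type) [MeasurableSpace Ω] (P : Measure Ω)
      (Φ : (EuclideanSpace ℝ (Fin d) → ℝ) → Ω → ℝ) (ρ : EuclideanSpace ℝ (Fin d) → ℝ),
      IsSetting P Φ ρ → ENNReal.ofReal a ≤ alphaInf P Φ ρ := by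
  obtain ⟨a, h1, -, h3⟩ := threshold
  exact ⟨a d, h1 d hd, fun Ω _ P Φ ρ S => (h3 d (by omega) Ω P Φ ρ S).2.1.ge⟩
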