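import Pool.Agent.Lib.MP_a0a493_pr.Thr

open MeasureTheory Filter Topology Pool.Agent.Lib.MP_a0a493_pr

/-- Both thresholds are asymptotic to `√(2d)` as `d → ∞`, uniformly in the setting. -/
theorem Pool.Agent.Results.MP_a0a493_pr.SharpAsymptotics.result (ε : ℝ) (hε : 0 < ε) :
    ∃ D : ℕ, ∀ d, D ≤ d → ∀ (Ω : Type) [MeasurableSpace Ω] (P : Measure Ω)
      (Φ : (EuclideanSpace ℝ (Fin d) → ℝ) → Ω → ℝ) (ρ : EuclideanSpace ℝ (Fin d) → ℝ),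
      IsSetting P Φ ρ →
        ENNReal.ofReal ((1 - ε) * √(2 * d)) ≤ alphaInf P Φ ρ ∧
        alphaInf P Φ ρ ≤ alphaC P Φ ρ ∧ alphaC P Φ ρ ≤ ENNReal.ofReal (√(2 * d)) := by
  obtain ⟨a, -, h2, h3⟩ := threshold
  obtain ⟨D, hD⟩ := eventually_atTop.1
    (((tendsto_order.1 h2).1 (1 - ε) (by linarith)).and (eventually_ge_atTop 2))
  refine ⟨D, fun d hd Ω _ P Φ ρ S => ?_⟩
  obtain ⟨h4, h5⟩ := hD d hd
  have s : 0 < √(2 * d : ℝ) := Real.sqrt_pos.2 (mul_pos two_pos (Nat.cast_pos.2 (by omega)))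
  refine ⟨?_, inf_le_c, S.upper h5⟩
  rw [(h3 d h5 Ω P Φ ρ S).2.1]
  exact ENNReal.ofReal_le_ofReal ((lt_div_iff₀ s).1 h4).le
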