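import Pool.Agent.Lib.MP_a0a493_pr.Thr

open MeasureTheory Filter Topology Pool.Agent.Lib.MP_a0a493_pr

/-- There is one sharp threshold, depending only on the dimension: the thick points are connected
and dense below it and totally disconnected above it, and it is the value of both thresholds. -/
theorem Pool.Agent.Results.MP_a0a493_pr.SharpThreshold.result (d : ℕ) (hd : 2 ≤ d) :
    ∃ a : ℝ, ∀ (Ω : Type) [MeasurableSpace Ω] (P : Measure Ω)
      (Φ : (EuclideanSpace ℝ (Fin d) → ℝ) → Ω → ℝ) (ρ : EuclideanSpace ℝ (Fin d) → ℝ),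
      IsSetting P Φ ρ →
        alphaC P Φ ρ = ENNReal.ofReal a ∧ alphaInf P Φ ρ = ENNReal.ofReal a ∧
        (∀ α : ℝ, 0 < α → α < a →
          ∀ᵐ ω ∂P, IsConnected (thick Φ ρ α ω) ∧ Dense (thick Φ ρ α ω)) ∧
        ∀ α : ℝ, a < α → ∀ᵐ ω ∂P, IsTotallyDisconnected (thick Φ ρ α ω) := by
  obtain ⟨a, -, -, h3⟩ := threshold
  exact ⟨a d, h3 d hd⟩
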