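import Pool.Agent.Lib.MP_a0a493_pr.StE

open MeasureTheory Filter Topology Pool.Agent.Lib.MP_a0a493_pr

/-- The threshold for a nontrivial component is strictly below `√(2(d-1))`. -/
theorem Pool.Agent.Results.MP_a0a493_pr.StrictUpper.result (d : ℕ) (hd : 3 ≤ d) :
    ∃ a : ℝ, a < √(2 * (d - 1)) ∧ ∀ (Ω : Type) [MeasurableSpace Ω] (P : Measure Ω)
      (Φ : (EuclideanSpace ℝ (Fin d) → ℝ) → Ω → ℝ) (ρ : EuclideanSpace ℝ (Fin d) → ℝ),
      IsSetting P Φ ρ → alphaC P Φ ρ ≤ ENNReal.ofReal a := by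
  obtain ⟨a, h1, h2⟩ := strict (d := d) (by omega)
  refine ⟨a, h1, fun Ω _ P Φ ρ S => iSup_le fun α => iSup_le fun _ => iSup_le fun h => ?_⟩
  exact ENNReal.ofReal_le_ofReal (not_lt.1 fun e => S.not_td h (h2 Ω P Φ ρ S α e))
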